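import Pool.Agent.Helper54.SR.Defs

/-!
# SR-D0, SR-D10: certificates under a change of coordinates and under ring homomorphisms
(problem MP_63a9db_ag, project of helper54)
-/

set_option autoImplicit false
open Polynomial

namespace Pool.Agent.Helper54.SR

private theorem cm_map_mk {A B : Type} [CommRing A] [CommRing B] (θ : A →+* B) (p : A[X])
    (q : B[X]) (h : q ∣ p.map θ) (g : A[X]) :
    AdjoinRoot.map θ p q h (AdjoinRoot.mk p g) = AdjoinRoot.mk q (g.map θ) := by
  unfold AdjoinRoot.map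
  rw [AdjoinRoot.lift_mk, ← AdjoinRoot.aeval_eq, Polynomial.aeval_def, Polynomial.eval₂_map,
    AdjoinRoot.algebraMap_eq]

/-- transport of a certificate -/
private theorem cm_push {ℓ : ℕ} {k R R' : Type} [Field k] [CommRing R] [CommRing R'] (φ : k →+* R)
    (φ' : k →+* R') (f f' : k[X][X]) (c η c' η' : k) (u y : R) (u' y' : R')
    (θ : R[X] →+* R'[X]) (hf : (fS φ f).map θ = fS φ' f') (hdeg : f.natDegree ≤ f'.natDegree)
    (hcont : ∀ H : R[X][X],
      Ideal.span (Set.range fun q : ℕ × ℕ => (H.coeff q.1).coeff q.2) = ⊤ →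
      Ideal.span (Set.range fun q : ℕ × ℕ => ((H.map θ).coeff q.1).coeff q.2) = ⊤)
    (hu : θ (X - C u) = X - C u') (hy : θ (C y) = C y') (hc : θ (X - C (φ c)) = X - C (φ' c'))
    (hη : θ (C (φ η)) = C (φ' η')) (h : Cert ℓ φ f c η u y) : Cert ℓ φ' f' c' η' u' y' := by
  obtain ⟨H₁, H₂, H₁₂, h1, h2, h3, h4⟩ := h
  have hd : fS φ' f' ∣ (fS φ f).map θ := dvd_of_eq hf.symm
  have hmk := cm_map_mk θ (fS φ f) (fS φ' f') hd
  refine ⟨H₁.map θ, H₂.map θ, H₁₂.map θ, ?_, hcont H₁ h2, ?_, ?_⟩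
  · exact lt_of_le_of_lt natDegree_map_le (lt_of_lt_of_le h1 hdeg)
  · have h5 := congrArg (AdjoinRoot.map θ (fS φ f) (fS φ' f') hd) h3
    rw [map_pow, map_mul, map_pow, hmk, hmk, hmk] at h5
    exact h5
  · have h5 := congrArg (Ideal.map (AdjoinRoot.map θ (fS φ f) (fS φ' f') hd)) h4
    rw [Ideal.map_mul, Ideal.map_mul, Ideal.map_span, Ideal.map_span, Ideal.map_span,
      Ideal.map_span, Set.image_pair, Set.image_pair, Set.image_pair, Set.image_singleton, hmk, hmk,
      hmk, hmk, hmk, hmk] at h5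
    have e1 : (C (X - C u) : R[X][X]).map θ = C (X - C u') := by rw [map_C, hu]
    have e2 : (X - C (C y) : R[X][X]).map θ = X - C (C y') := by
      rw [Polynomial.map_sub, map_X, map_C, hy]
    have e3 : (C (X - C (φ c)) : R[X][X]).map θ = C (X - C (φ' c')) := by rw [map_C, hc]
    have e4 : (X - C (C (φ η)) : R[X][X]).map θ = X - C (C (φ' η')) := by
      rw [Polynomial.map_sub, map_X, map_C, hη]
    rw [e1, e2, e3, e4] at h5
    exact h5

/-- SR-D10 -/
theorem cert_map {ℓ : ℕ} {k R R' : Type} [Field k] [CommRing R] [CommRing R'] (φ : k →+* R)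
    (ψ : R →+* R') (f : k[X][X]) (c η : k) (u y : R) (h : Cert ℓ φ f c η u y) :
    Cert ℓ (ψ.comp φ) f c η (ψ u) (ψ y) := by
  refine cm_push φ (ψ.comp φ) f f c η c η u y (ψ u) (ψ y) (mapRingHom ψ) ?_ le_rfl ?_ ?_ ?_ ?_ ?_ h
  · unfold fS
    rw [Polynomial.map_map, Polynomial.mapRingHom_comp]
  · intro H hH
    have h1 := congrArg (Ideal.map ψ) hH
    rw [Ideal.map_span, Ideal.map_top, ← Set.range_comp] at h1
    rw [← h1]
    congr 1
    congr 1
    funext q
    simp
  · simp
  · simp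
  · simp
  · simp

private theorem cm_comp_mem {S : Type} [CommRing S] (I : Ideal S) (p q : S[X])
    (hp : ∀ n, p.coeff n ∈ I) (n : ℕ) : (p.comp q).coeff n ∈ I := by
  have h1 : p.map (Ideal.Quotient.mk I) = 0 := by
    ext m
    rw [coeff_map, coeff_zero, Ideal.Quotient.eq_zero_iff_mem]
    exact hp m
  have h2 : (p.comp q).map (Ideal.Quotient.mk I) = 0 := by
    rw [Polynomial.map_comp, h1, zero_comp]
  have h3 := congrArg (fun r => r.coeff n) h2
  simp only [coeff_map, coeff_zero] at h3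
  exact Ideal.Quotient.eq_zero_iff_mem.1 h3

/-- SR-D0 -/
theorem cert_translate {ℓ : ℕ} {k S : Type} [Field k] [CommRing S] (φ : k →+* S) (f : k[X][X])
    (c η : k) (u y : S)
    (h : Cert ℓ φ (f.map (Polynomial.compRingHom (X + C c))) 0 η u y) :
    Cert ℓ φ f c η (u + φ c) y := by
  refine cm_push φ φ (f.map (Polynomial.compRingHom (X + C c))) f 0 η c η u y (u + φ c) y
    (compRingHom (X - C (φ c))) ?_ natDegree_map_le ?_ ?_ ?_ ?_ ?_ h
  · unfold fS
    rw [Polynomial.map_map, Polynomial.map_map]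
    congr 1
    apply Polynomial.ringHom_ext
    · intro a
      simp
    · simp
  · intro H hH
    rw [eq_top_iff, ← hH, Ideal.span_le]
    rintro _ ⟨⟨a, b⟩, rfl⟩
    show (H.coeff a).coeff b ∈ _
    have h1 : H.coeff a = ((H.map (compRingHom (X - C (φ c)))).coeff a).comp (X + C (φ c)) := by
      rw [coeff_map, coe_compRingHom_apply, comp_assoc]
      simp
    rw [h1]
    refine cm_comp_mem _ _ _ (fun n => ?_) b
    exact Ideal.subset_span ⟨(a, n), rfl⟩
  · simp only [coe_compRingHom_apply, sub_comp, X_comp, C_comp, map_add]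
    ring
  · simp
  · simp
  · simp

end Pool.Agent.Helper54.SR
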