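import Pool.Agent.Helper54.SR.Defs

/-!
# SR-D7b: membership in an ideal by evaluation at points
(problem MP_63a9db_ag, project of helper54)
-/

set_option autoImplicit false
set_option linter.unusedVariables false
open Polynomial

namespace Pool.Agent.Helper54.SR

/-- a polynomial with coefficients in an ideal -/
private theorem se_smul {S : Type} [CommRing S] {M : Type} [AddCommGroup M] [Module S M]
    (I : Ideal S) (L : S[X][X] →ₗ[S] M) (N : Submodule S M) (G : S[X][X])
    (hG : ∀ i j, (G.coeff i).coeff j ∈ I) : L G ∈ N ⊔ I • (⊤ : Submodule S M) := by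
  refine Submodule.mem_sup_right ?_
  have h1 : G = ∑ i ∈ G.support, ∑ j ∈ (G.coeff i).support,
      (G.coeff i).coeff j • (monomial i (monomial j (1 : S)) : S[X][X]) := by
    conv_lhs => rw [G.as_sum_support]
    refine Finset.sum_congr rfl fun i _ => ?_
    conv_lhs => rw [(G.coeff i).as_sum_support]
    rw [map_sum]
    refine Finset.sum_congr rfl fun j _ => ?_
    rw [smul_monomial, smul_monomial, smul_eq_mul, mul_one]
  rw [h1, map_sum]
  refine Submodule.sum_mem _ fun i _ => ?_
  rw [map_sum]
  refine Submodule.sum_mem _ fun j _ => ?_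
  rw [map_smul]
  exact Submodule.smul_mem_smul (hG i j) Submodule.mem_top

/-- Vandermonde -/
private theorem se_vand {S : Type} [CommRing S] {n : ℕ} (b : Fin n → S)
    (hb : ∀ i j, i ≠ j → IsUnit (b i - b j)) (c : Fin n → S)
    (h : ∀ i, ∑ j : Fin n, c j * b i ^ (j : ℕ) = 0) : c = 0 := by
  have hdet : IsUnit (Matrix.vandermonde b).det := by
    rw [Matrix.det_vandermonde]
    refine Finset.prod_induction _ IsUnit (fun _ _ => IsUnit.mul) isUnit_one fun i _ => ?_
    refine Finset.prod_induction _ IsUnit (fun _ _ => IsUnit.mul) isUnit_one fun j hj => ?_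
    exact hb j i (Finset.mem_Ioi.1 hj).ne'
  have h1 : (Matrix.vandermonde b).mulVec c = 0 := by
    funext i
    rw [Matrix.mulVec, dotProduct]
    simp only [Matrix.vandermonde_apply, Pi.zero_apply]
    rw [← h i]
    exact Finset.sum_congr rfl fun j _ => mul_comm _ _
  have h2 : c = (Matrix.vandermonde b)⁻¹.mulVec ((Matrix.vandermonde b).mulVec c) := by
    rw [Matrix.mulVec_mulVec, Matrix.nonsing_inv_mul _ hdet, Matrix.one_mulVec]
  rw [h2, h1, Matrix.mulVec_zero]

/-- SR-D7b -/
theorem mem_span_of_eval {S κ : Type} [CommRing S] [IsLocalRing S] [Field κ] (π : S →+* κ)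
    (hπ : Function.Surjective π) (f : S[X][X]) (hf : f.Monic) {n M : ℕ} (hn : f.natDegree = n)
    (H₁ H₂ : S[X][X]) (hfin : Module.Finite S (AdjoinRoot f ⧸ Ideal.span {AdjoinRoot.mk f H₂}))
    (hM : 0 < M) (h1 : H₁.map (Polynomial.mapRingHom π) = C X)
    (h2 : H₂.map (Polynomial.mapRingHom π) = C (X ^ M)) (a b : Fin n → S)
    (hroot : ∀ i, evalEval (a i) (b i) f = 0) (e1 : ∀ i, evalEval (a i) (b i) H₁ = 0)
    (e2 : ∀ i, evalEval (a i) (b i) H₂ = 0) (hb : ∀ i j, i ≠ j → IsUnit (b i - b j))
    (B : S[X][X]) (hB : ∀ i, evalEval (a i) (b i) B = 0) :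
    AdjoinRoot.mk f B ∈ Ideal.span {AdjoinRoot.mk f H₁, AdjoinRoot.mk f H₂} := by
  set I : Ideal (AdjoinRoot f) := Ideal.span {AdjoinRoot.mk f H₁, AdjoinRoot.mk f H₂} with hI
  have hH1 : AdjoinRoot.mk f H₁ ∈ I := Ideal.subset_span (Set.mem_insert _ _)
  have hH2 : AdjoinRoot.mk f H₂ ∈ I :=
    Ideal.subset_span (Set.mem_insert_of_mem _ (Set.mem_singleton _))
  -- the quotient is finite
  have hle : Ideal.span {AdjoinRoot.mk f H₂} ≤ I := by
    rw [Ideal.span_le, Set.singleton_subset_iff]
    exact hH2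
  have hfin' : Module.Finite S (AdjoinRoot f ⧸ I) := by
    refine Module.Finite.of_surjective
      (Ideal.Quotient.factorₐ S hle).toLinearMap ?_
    exact Ideal.Quotient.factor_surjective hle
  -- the linear map from the polynomials
  let L : S[X][X] →ₗ[S] (AdjoinRoot f ⧸ I) :=
    ((Ideal.Quotient.mkₐ S I).toLinearMap).comp
      { toFun := fun P => AdjoinRoot.mk f P
        map_add' := fun P Q => map_add _ P Q
        map_smul' := fun s P => by
          rw [RingHom.id_apply, Algebra.smul_def, map_mul, Algebra.smul_def]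
          rfl }
  have hL : ∀ P, L P = Ideal.Quotient.mk I (AdjoinRoot.mk f P) := fun P => rfl
  let N : Submodule S (AdjoinRoot f ⧸ I) :=
    Submodule.span S (Set.range fun j : Fin n => L (X ^ (j : ℕ)))
  have hker : RingHom.ker π ≤ Ideal.jacobson ⊥ := by
    have hmax : (RingHom.ker π).IsMaximal := RingHom.ker_isMaximal_of_surjective π hπ
    rw [IsLocalRing.eq_maximalIdeal hmax, IsLocalRing.jacobson_eq_maximalIdeal ⊥ bot_ne_top]
  have hXmul : ∀ P : S[X][X], L (C X * P) ∈ N ⊔ RingHom.ker π • (⊤ : Submodule S (AdjoinRoot f ⧸ I)) := by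
    intro P
    have h3 : L (C X * P) = - L ((H₁ - C X) * P) := by
      rw [← map_neg, ← sub_eq_zero, ← map_sub, hL]
      have h4 : C X * P - -((H₁ - C X) * P) = H₁ * P := by ring
      rw [h4, map_mul, Ideal.Quotient.eq_zero_iff_mem]
      exact I.mul_mem_right _ hH1
    rw [h3]
    refine Submodule.neg_mem _ (se_smul _ L N _ fun i j => ?_)
    rw [RingHom.mem_ker]
    have h5 : ((H₁ - C X) * P).map (mapRingHom π) = 0 := by
      rw [Polynomial.map_mul, Polynomial.map_sub, h1, map_C, coe_mapRingHom, map_X, sub_self,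
        zero_mul]
    have h6 : π ((((H₁ - C X) * P).coeff i).coeff j) =
        ((((H₁ - C X) * P).map (mapRingHom π)).coeff i).coeff j := by
      rw [coeff_map, coe_mapRingHom, coeff_map]
    rw [h6, h5, coeff_zero, coeff_zero]
  have htop : (⊤ : Submodule S (AdjoinRoot f ⧸ I)) ≤ N ⊔ RingHom.ker π • ⊤ := by
    rintro z -
    obtain ⟨z', rfl⟩ := Ideal.Quotient.mk_surjective z
    obtain ⟨P, rfl⟩ := AdjoinRoot.mk_surjective z'
    have h3 : AdjoinRoot.mk f P = AdjoinRoot.mk f (P %ₘ f) := by
      rw [AdjoinRoot.mk_eq_mk]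
      refine ⟨P /ₘ f, ?_⟩
      linear_combination -(modByMonic_add_div P f)
    rw [h3, ← hL]
    set Q := P %ₘ f with hQ
    have hQd : Q.natDegree < n ∨ n = 0 := by
      rcases Nat.eq_zero_or_pos n with h0 | h0
      · exact Or.inr h0
      · left
        rw [← hn]
        refine natDegree_modByMonic_lt P hf ?_
        rintro rfl
        rw [natDegree_one] at hn
        omega
    rcases hQd with hQd | h0
    · have h4 : Q = ∑ j ∈ Finset.range n, C (Q.coeff j) * X ^ j := by
        conv_lhs => rw [Q.as_sum_range_C_mul_X_pow' hQd]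
      rw [h4, map_sum]
      refine Submodule.sum_mem _ fun j hj => ?_
      have h5 : (C (Q.coeff j) * X ^ j : S[X][X]) =
          C (C ((Q.coeff j).coeff 0)) * X ^ j + C X * (C (divX (Q.coeff j)) * X ^ j) := by
        conv_lhs => rw [← divX_mul_X_add (Q.coeff j)]
        simp only [map_add, map_mul]
        ring
      rw [h5, map_add]
      refine Submodule.add_mem _ (Submodule.mem_sup_left ?_) (hXmul _)
      have h6 : (C (C ((Q.coeff j).coeff 0)) * X ^ j : S[X][X]) =
          (Q.coeff j).coeff 0 • (X ^ j : S[X][X]) := by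
        rw [Algebra.smul_def]
        rfl
      rw [h6, map_smul]
      exact Submodule.smul_mem _ _ (Submodule.subset_span
        ⟨⟨j, Finset.mem_range.1 hj⟩, rfl⟩)
    · have hf1 : f = 1 := by
        rw [h0] at hn
        exact hf.natDegree_eq_zero.1 hn
      have h4 : Q = 0 := by
        rw [hQ, hf1, modByMonic_one]
      rw [h4, map_zero]
      exact Submodule.zero_mem _
  have hN : (⊤ : Submodule S (AdjoinRoot f ⧸ I)) ≤ N :=
    Submodule.le_of_le_smul_of_le_jacobson_bot hfin'.fg_top hker htop
  -- write `B` as a combination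
  have hBN : L B ∈ N := hN Submodule.mem_top
  obtain ⟨c, hc⟩ := (Submodule.mem_span_range_iff_exists_fun S).1 hBN
  have hmem : AdjoinRoot.mk f (B - ∑ j : Fin n, c j • (X ^ (j : ℕ) : S[X][X])) ∈ I := by
    rw [← Ideal.Quotient.eq_zero_iff_mem, ← hL, map_sub, map_sum, sub_eq_zero, ← hc]
    refine Finset.sum_congr rfl fun j _ => ?_
    rw [map_smul]
  -- evaluation
  have hc0 : c = 0 := by
    refine se_vand b hb c fun i => ?_
    let e : AdjoinRoot f →+* S := AdjoinRoot.lift (evalRingHom (a i)) (b i) (by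
      rw [eval₂_evalRingHom]
      exact hroot i)
    have he : ∀ P, e (AdjoinRoot.mk f P) = evalEval (a i) (b i) P := by
      intro P
      show AdjoinRoot.lift (evalRingHom (a i)) (b i) _ (AdjoinRoot.mk f P) = _
      rw [AdjoinRoot.lift_mk, eval₂_evalRingHom]
    have hIe : ∀ z ∈ I, e z = 0 := by
      intro z hz
      have h3 : I ≤ RingHom.ker e := by
        rw [hI, Ideal.span_le]
        rintro _ (rfl | rfl)
        · show e _ = 0
          rw [he, e1]
        · show e _ = 0
          rw [he, e2]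
      exact h3 hz
    have h3 := hIe _ hmem
    rw [he, evalEval_sub, hB, zero_sub, neg_eq_zero] at h3
    rw [← h3, ← coe_evalEvalRingHom, map_sum]
    refine Finset.sum_congr rfl fun j _ => ?_
    rw [Algebra.smul_def, map_mul, map_pow, coe_evalEvalRingHom]
    simp [evalEval]
  rw [hc0] at hmem
  simpa using hmem

end Pool.Agent.Helper54.SR
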